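import Pool.Agent.Helper83.HL.St

/-!
# Project HL, module E: the large sieve bound for bad primes
-/

set_option autoImplicit false

namespace Pool.Agent.Helper41.HL

open Pool.Agent.Helper83.HL Finset
open Pool.Agent.Helper15.AB (ee StAL)

open Classical

theorem ee_add (s t : ℝ) : ee (s + t) = ee s * ee t := by
  unfold ee
  rw [← Complex.exp_add]
  congr 1
  push_cast
  ring

theorem ee_int (n : ℤ) : ee n = 1 := by
  unfold ee
  have h := Complex.exp_int_mul_two_pi_mul_I n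
  rw [← h]
  congr 1
  push_cast
  ring

theorem ee_pow (t : ℝ) (j : ℕ) : ee (j * t) = ee t ^ j := by
  unfold ee
  rw [← Complex.exp_nat_mul]
  congr 1
  push_cast
  ring

theorem ee_conj (x : ℝ) : (starRingEnd ℂ) (ee x) = ee (-x) := by
  unfold ee
  rw [← Complex.exp_conj]
  congr 1
  simp only [map_mul, Complex.conj_ofReal, Complex.conj_I, map_ofNat]
  push_cast
  ring

theorem ee_eq_one (d : ℕ) (hd : 1 ≤ d) (β : ℤ) (h : ee ((β : ℝ) / d) = 1) : (d : ℤ) ∣ β := by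
  unfold ee at h
  obtain ⟨n, hn⟩ := Complex.exp_eq_one_iff.1 h
  have hd0 : (d : ℂ) ≠ 0 := by
    have : d ≠ 0 := by omega
    exact_mod_cast this
  have h1 : (((β : ℝ) / d : ℝ) : ℂ) = n := by
    have h2 : (2 * (Real.pi : ℂ) * Complex.I) ≠ 0 := Complex.two_pi_I_ne_zero
    have h3 : (((β : ℝ) / d : ℝ) : ℂ) * (2 * (Real.pi : ℂ) * Complex.I) =
        n * (2 * (Real.pi : ℂ) * Complex.I) := by
      rw [← hn]; ring
    exact mul_right_cancel₀ h2 h3
  refine ⟨n, ?_⟩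
  push_cast at h1
  rw [div_eq_iff hd0] at h1
  have h4 : (β : ℂ) = ((d * n : ℤ) : ℂ) := by
    rw [h1]; push_cast; ring
  exact_mod_cast h4

theorem geom (d : ℕ) (hd : 1 ≤ d) (β : ℤ) :
    ∑ j ∈ range d, ee ((β : ℝ) / d) ^ j = if (d : ℤ) ∣ β then (d : ℂ) else 0 := by
  have hd0 : (d : ℝ) ≠ 0 := by
    have : (0 : ℝ) < d := by exact_mod_cast hd
    exact this.ne'
  split_ifs with h
  · obtain ⟨b, rfl⟩ := h
    have h1 : ee ((((d : ℤ) * b : ℤ) : ℝ) / d) = 1 := by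
      rw [← ee_int b]
      congr 1
      push_cast
      field_simp
    rw [h1]
    simp
  · have h1 : ee ((β : ℝ) / d) ≠ 1 := fun h2 => h (ee_eq_one d hd β h2)
    rw [geom_sum_eq h1, ← ee_pow]
    have h2 : (d : ℝ) * ((β : ℝ) / d) = (β : ℤ) := by field_simp
    rw [h2, ee_int, sub_self, zero_div]

/-- Parseval, in the form of a pair count -/
theorem parseval (q : ℕ) (hq : 1 ≤ q) (S : Finset ℕ) :
    ∑ b ∈ range q, ‖∑ n ∈ S, ee ((n : ℝ) * ((b : ℝ) / q))‖ ^ 2 =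
      q * ∑ n ∈ S, ∑ n' ∈ S, (if (n : ZMod q) = (n' : ZMod q) then (1 : ℝ) else 0) := by
  have key : ((∑ b ∈ range q, ‖∑ n ∈ S, ee ((n : ℝ) * ((b : ℝ) / q))‖ ^ 2 : ℝ) : ℂ) =
      ((q * ∑ n ∈ S, ∑ n' ∈ S, (if (n : ZMod q) = (n' : ZMod q) then (1 : ℝ) else 0) : ℝ) : ℂ) := by
    push_cast
    have h1 : ∀ b ∈ range q, ((‖∑ n ∈ S, ee ((n : ℝ) * ((b : ℝ) / q))‖ : ℂ) ^ 2) =
        ∑ n ∈ S, ∑ n' ∈ S, ee ((((n : ℤ) - (n' : ℤ) : ℤ) : ℝ) / q) ^ b := by
      intro b _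
      rw [← Complex.mul_conj', map_sum, Finset.sum_mul_sum]
      refine Finset.sum_congr rfl fun n _ => Finset.sum_congr rfl fun n' _ => ?_
      rw [ee_conj, ← ee_add, ← ee_pow]
      congr 1
      push_cast
      ring
    rw [Finset.sum_congr rfl h1, Finset.sum_comm, Finset.mul_sum]
    refine Finset.sum_congr rfl fun n _ => ?_
    rw [Finset.sum_comm, Finset.mul_sum]
    refine Finset.sum_congr rfl fun n' _ => ?_
    rw [geom q hq]
    have h2 : (q : ℤ) ∣ (n : ℤ) - (n' : ℤ) ↔ (n : ZMod q) = (n' : ZMod q) := by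
      rw [← ZMod.intCast_eq_intCast_iff_dvd_sub]
      push_cast
      exact eq_comm
    by_cases h : (n : ZMod q) = (n' : ZMod q)
    · rw [if_pos (h2.2 h), if_pos h]; simp
    · rw [if_neg (fun h3 => h (h2.1 h3)), if_neg h]; simp
  exact_mod_cast key

/-- Cauchy-Schwarz for the classes -/
theorem pairs_ge (q D : ℕ) (S : Finset ℕ) (hD : (S.image (fun n : ℕ => (n : ZMod q))).card ≤ D) :
    (S.card : ℝ) ^ 2 ≤
      D * ∑ n ∈ S, ∑ n' ∈ S, (if (n : ZMod q) = (n' : ZMod q) then (1 : ℝ) else 0) := by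
  set g : ℕ → ZMod q := fun n => (n : ZMod q) with hg
  set T := S.image g with hT
  set c : ZMod q → ℝ := fun t => ((S.filter (fun a => g a = t)).card : ℝ) with hc
  have h1 : (S.card : ℝ) = ∑ t ∈ T, c t := by
    have := Finset.card_eq_sum_card_image g S
    simp only [hc, ← hT] at this ⊢
    exact_mod_cast this
  have h2 : ∑ n ∈ S, ∑ n' ∈ S, (if (n : ZMod q) = (n' : ZMod q) then (1 : ℝ) else 0) =
      ∑ t ∈ T, c t ^ 2 := by
    have h3 : ∀ n ∈ S, ∑ n' ∈ S, (if (n : ZMod q) = (n' : ZMod q) then (1 : ℝ) else 0) =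
        c (g n) := by
      intro n _
      rw [Finset.sum_boole]
      simp only [hc, hg]
      congr 2
      ext a
      simp only [Finset.mem_filter]
      exact and_congr_right fun _ => eq_comm
    rw [Finset.sum_congr rfl h3, Finset.sum_comp c g]
    refine Finset.sum_congr rfl fun t _ => ?_
    rw [nsmul_eq_mul, sq]
  rw [h2, h1]
  have h4 : (∑ t ∈ T, c t) ^ 2 ≤ (T.card : ℝ) * ∑ t ∈ T, c t ^ 2 := sq_sum_le_card_mul_sum_sq
  have h5 : (0 : ℝ) ≤ ∑ t ∈ T, c t ^ 2 := Finset.sum_nonneg fun t _ => sq_nonneg _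
  have h6 : (T.card : ℝ) ≤ D := by exact_mod_cast hD
  exact h4.trans (mul_le_mul_of_nonneg_right h6 h5)

/-- the class of a smooth number is in `Hs` -/
theorem smooth_mem (q m : ℕ) (hq : q.Prime) (hmq : m < q) : ∀ n : ℕ, 1 ≤ n →
    (∀ p : ℕ, p.Prime → p ∣ n → p ≤ m) → ∃ u ∈ Hs q m, (u : ZMod q) = (n : ZMod q) := by
  intro n
  induction n using Nat.strong_induction_on with
  | _ n ih =>
    intro hn hs
    rcases Nat.lt_or_ge 1 n with h1 | h1
    · have hp : (n.minFac).Prime := Nat.minFac_prime (by omega)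
      have hpd : n.minFac ∣ n := Nat.minFac_dvd n
      obtain ⟨k, hk⟩ := hpd
      have hpm : n.minFac ≤ m := hs _ hp ⟨k, hk⟩
      have hk1 : 1 ≤ k := by
        rcases Nat.eq_zero_or_pos k with h | h
        · rw [h] at hk; omega
        · exact h
      have hkn : k < n := by
        have h2 := hp.two_le
        calc k < 2 * k := by omega
          _ ≤ n.minFac * k := Nat.mul_le_mul_right _ h2
          _ = n := hk.symm
      obtain ⟨u, hu, huk⟩ := ih k hkn hk1 (fun p hp' hpk => hs p hp' (hk ▸ Dvd.dvd.mul_left hpk _))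
      have hcop : Nat.Coprime n.minFac q := by
        rw [Nat.coprime_comm]
        refine (Nat.Prime.coprime_iff_not_dvd hq).2 fun hd => ?_
        have := Nat.le_of_dvd hp.pos hd
        omega
      refine ⟨ZMod.unitOfCoprime n.minFac hcop * u, ?_, ?_⟩
      · refine Subgroup.mul_mem _ (Subgroup.subset_closure ?_) hu
        exact ⟨n.minFac, hp.two_le, hpm, ZMod.coe_unitOfCoprime _ _⟩
      · rw [Units.val_mul, huk, ZMod.coe_unitOfCoprime]
        conv_rhs => rw [hk]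
        push_cast
        rfl
    · have : n = 1 := by omega
      subst this
      exact ⟨1, Subgroup.one_mem _, by simp⟩

theorem two_D (q m : ℕ) (hb : Bad q m) : 2 * Dq q m ≤ q ∧ 1 ≤ Dq q m := by
  obtain ⟨hq, hmq, hne⟩ := hb
  have : Fact q.Prime := ⟨hq⟩
  have : NeZero q := ⟨hq.pos.ne'⟩
  have hcard : Nat.card (ZMod q)ˣ = q - 1 := by
    rw [Nat.card_eq_fintype_card, ZMod.card_units]
  have h1 : Dq q m ∣ q - 1 := by
    rw [← hcard]
    exact Subgroup.card_subgroup_dvd_card _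
  have hpos : 0 < Dq q m := Nat.card_pos
  have h2 : Dq q m ≠ q - 1 := by
    intro h
    apply hne
    apply Subgroup.eq_top_of_card_eq
    rw [hcard]
    exact h
  obtain ⟨k, hk⟩ := h1
  have hq2 := hq.two_le
  have hk2 : 2 ≤ k := by
    rcases k with _ | _ | k
    · omega
    · omega
    · omega
  refine ⟨?_, hpos⟩
  have : Dq q m * 2 ≤ Dq q m * k := Nat.mul_le_mul_left _ hk2
  omega

/-- the sieve sum at one bad prime -/
theorem one_prime (q m N : ℕ) (hb : Bad q m) :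
    (q : ℝ) / (2 * Dq q m) * (Psi N m : ℝ) ^ 2 ≤
      ∑ b ∈ (range q).filter (fun b => Nat.Coprime b q),
        ‖∑ n ∈ (Finset.Icc 1 N).filter (fun n => ∀ p : ℕ, p.Prime → p ∣ n → p ≤ m),
          ee ((n : ℝ) * ((b : ℝ) / q))‖ ^ 2 := by
  obtain ⟨h2D, hD1⟩ := two_D q m hb
  obtain ⟨hq, hmq, hne⟩ := hb
  have : Fact q.Prime := ⟨hq⟩
  have : NeZero q := ⟨hq.pos.ne'⟩
  set S := (Finset.Icc 1 N).filter (fun n => ∀ p : ℕ, p.Prime → p ∣ n → p ≤ m) with hS
  have hZ : (Psi N m : ℝ) = S.card := rfl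
  set F : ℕ → ℝ := fun b => ‖∑ n ∈ S, ee ((n : ℝ) * ((b : ℝ) / q))‖ ^ 2 with hF
  have himg : (S.image (fun n : ℕ => (n : ZMod q))).card ≤ Dq q m := by
    have hsub : S.image (fun n : ℕ => (n : ZMod q)) ⊆
        (Finset.univ.filter (fun u : (ZMod q)ˣ => u ∈ Hs q m)).image (fun u : (ZMod q)ˣ => (u : ZMod q)) := by
      intro t ht
      obtain ⟨n, hn, rfl⟩ := Finset.mem_image.1 ht
      rw [hS, Finset.mem_filter, Finset.mem_Icc] at hn
      obtain ⟨u, hu, huk⟩ := smooth_mem q m hq hmq n hn.1.1 hn.2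
      exact Finset.mem_image.2 ⟨u, Finset.mem_filter.2 ⟨Finset.mem_univ _, hu⟩, huk⟩
    refine (Finset.card_le_card hsub).trans (Finset.card_image_le.trans ?_)
    rw [Dq, Nat.card_eq_fintype_card, Fintype.card_subtype]
  have hpar := parseval q hq.one_le S
  have hpg := pairs_ge q (Dq q m) S himg
  set P := ∑ n ∈ S, ∑ n' ∈ S, (if (n : ZMod q) = (n' : ZMod q) then (1 : ℝ) else 0) with hP
  have hfil : (range q).filter (fun b => Nat.Coprime b q) = (range q).erase 0 := by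
    ext b
    simp only [Finset.mem_filter, Finset.mem_range, Finset.mem_erase]
    constructor
    · rintro ⟨h1, h2⟩
      refine ⟨?_, h1⟩
      rintro rfl
      have := (Nat.coprime_zero_left q).1 h2
      exact hq.one_lt.ne' this
    · rintro ⟨h1, h2⟩
      exact ⟨h2, Nat.Coprime.symm ((Nat.Prime.coprime_iff_not_dvd hq).2
        fun hd => h1 (Nat.eq_zero_of_dvd_of_lt hd h2))⟩
  have h0 : F 0 = (S.card : ℝ) ^ 2 := by
    simp only [hF]
    have : ∀ n ∈ S, ee ((n : ℝ) * (((0 : ℕ) : ℝ) / q)) = 1 := by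
      intro n _
      have := ee_int 0
      simp only [Int.cast_zero] at this
      simpa using this
    rw [Finset.sum_congr rfl this]
    simp
  have hsplit : ∑ b ∈ (range q).erase 0, F b = ∑ b ∈ range q, F b - F 0 := by
    rw [← Finset.add_sum_erase (range q) F (Finset.mem_range.2 hq.pos)]
    ring
  rw [hfil]
  change _ ≤ ∑ b ∈ (range q).erase 0, F b
  rw [hsplit, h0, hZ]
  have hpar' : ∑ b ∈ range q, F b = q * P := hpar
  rw [hpar']
  have hDr : (0 : ℝ) < Dq q m := by exact_mod_cast hD1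
  have h2Dr : (2 : ℝ) * Dq q m ≤ q := by exact_mod_cast h2D
  have hPge : (S.card : ℝ) ^ 2 / Dq q m ≤ P := by
    rw [div_le_iff₀ hDr]
    linarith
  have hq0 : (0 : ℝ) < q := by exact_mod_cast hq.pos
  have hZ2 : (0 : ℝ) ≤ (S.card : ℝ) ^ 2 := sq_nonneg _
  have h3 : (q : ℝ) * ((S.card : ℝ) ^ 2 / Dq q m) ≤ q * P := mul_le_mul_of_nonneg_left hPge hq0.le
  have h4 : (q : ℝ) * ((S.card : ℝ) ^ 2 / Dq q m) =
      2 * ((q : ℝ) / (2 * Dq q m) * (S.card : ℝ) ^ 2) := by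
    field_simp
  have h5 : (S.card : ℝ) ^ 2 ≤ (q : ℝ) / (2 * Dq q m) * (S.card : ℝ) ^ 2 := by
    have h6 : (1 : ℝ) ≤ (q : ℝ) / (2 * Dq q m) := by
      rw [le_div_iff₀ (by positivity)]
      linarith
    nlinarith
  linarith

theorem mE : Pool.Agent.Helper15.AB.StAL → StE := by
  rintro ⟨C₀, hC₀, hAL⟩
  refine ⟨8 * C₀, by positivity, ?_⟩
  intro Q N m hQ hN hm
  set S := (Finset.Icc 1 N).filter (fun n => ∀ p : ℕ, p.Prime → p ∣ n → p ≤ m) with hS
  set a : ℕ → ℂ := fun n => if (∀ p : ℕ, p.Prime → p ∣ n → p ≤ m) then 1 else 0 with ha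
  have hZ : (Psi N m : ℝ) = S.card := rfl
  have hIoc : Ioc 0 (0 + N) = Icc 1 N := by
    ext n; simp only [Finset.mem_Ioc, Finset.mem_Icc]; omega
  have hsum : ∀ t : ℝ, ∑ n ∈ Ioc 0 (0 + N), a n * ee (n * t) = ∑ n ∈ S, ee ((n : ℝ) * t) := by
    intro t
    rw [hIoc, hS, Finset.sum_filter]
    refine Finset.sum_congr rfl fun n _ => ?_
    simp only [ha]
    split_ifs <;> simp
  have hnorm : ∑ n ∈ Ioc 0 (0 + N), ‖a n‖ ^ 2 = (S.card : ℝ) := by
    rw [hIoc, hS, Finset.card_filter]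
    push_cast
    refine Finset.sum_congr rfl fun n _ => ?_
    simp only [ha]
    split_ifs <;> simp
  have h1 := hAL (2 * Q) N 0 a
  rw [hnorm] at h1
  have hZpos : (0 : ℝ) < S.card := by
    have : 0 < S.card := by
      refine Finset.card_pos.2 ⟨1, ?_⟩
      rw [hS, Finset.mem_filter, Finset.mem_Icc]
      refine ⟨⟨le_refl 1, hN⟩, fun p hp hd => ?_⟩
      have := Nat.le_of_dvd one_pos hd
      exact absurd this (by have := hp.two_le; omega)
    exact_mod_cast this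
  have hQ0 : (0 : ℝ) < Q := by exact_mod_cast hQ
  set B := (Finset.Ioc Q (2 * Q)).filter (fun q => Bad q m) with hB
  set G : ℕ → ℝ := fun r => ∑ b ∈ (range r).filter (fun b => Nat.Coprime b r),
    ‖∑ n ∈ Ioc 0 (0 + N), a n * ee (n * (b / r))‖ ^ 2 with hG
  have hGnn : ∀ r, 0 ≤ G r := fun r => Finset.sum_nonneg fun b _ => sq_nonneg _
  have hBsub : B ⊆ Icc 1 (2 * Q) := by
    intro q hq
    rw [hB, Finset.mem_filter, Finset.mem_Ioc] at hq
    rw [Finset.mem_Icc]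
    omega
  have h2 : ∑ q ∈ B, G q ≤ C₀ * (N + ((2 * Q : ℕ) : ℝ) ^ 2) * (S.card : ℝ) :=
    (Finset.sum_le_sum_of_subset_of_nonneg hBsub fun r _ _ => hGnn r).trans h1
  have h3 : ∀ q ∈ B, (Q : ℝ) / 2 * (S.card : ℝ) ^ 2 * (1 / (Dq q m : ℝ)) ≤ G q := by
    intro q hq
    rw [hB, Finset.mem_filter, Finset.mem_Ioc] at hq
    have h4 := one_prime q m N hq.2
    have h5 : G q = ∑ b ∈ (range q).filter (fun b => Nat.Coprime b q),
        ‖∑ n ∈ S, ee ((n : ℝ) * ((b : ℝ) / q))‖ ^ 2 := by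
      simp only [hG]
      refine Finset.sum_congr rfl fun b _ => ?_
      rw [hsum]
    rw [h5]
    refine le_trans ?_ h4
    obtain ⟨-, hD1⟩ := two_D q m hq.2
    have hDr : (0 : ℝ) < Dq q m := by exact_mod_cast hD1
    have hQq : (Q : ℝ) ≤ q := by exact_mod_cast hq.1.1.le
    rw [hZ]
    have h6 : (Q : ℝ) / 2 * (S.card : ℝ) ^ 2 * (1 / (Dq q m : ℝ)) =
        (Q : ℝ) / (2 * Dq q m) * (S.card : ℝ) ^ 2 := by field_simp
    rw [h6]
    have h7 : (Q : ℝ) / (2 * Dq q m) ≤ (q : ℝ) / (2 * Dq q m) :=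
      div_le_div_of_nonneg_right hQq (by positivity)
    exact mul_le_mul_of_nonneg_right h7 (sq_nonneg _)
  have h8 : (Q : ℝ) / 2 * (S.card : ℝ) ^ 2 * ∑ q ∈ B, 1 / (Dq q m : ℝ) ≤
      C₀ * (N + ((2 * Q : ℕ) : ℝ) ^ 2) * (S.card : ℝ) := by
    rw [Finset.mul_sum]
    exact (Finset.sum_le_sum h3).trans h2
  rw [hZ, le_div_iff₀ (by positivity)]
  set X := ∑ q ∈ B, 1 / (Dq q m : ℝ) with hX
  have h9 : (Q : ℝ) / 2 * (S.card : ℝ) * X ≤ C₀ * (N + ((2 * Q : ℕ) : ℝ) ^ 2) := by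
    have h10 : ((Q : ℝ) / 2 * (S.card : ℝ) * X) * (S.card : ℝ) ≤
        C₀ * (N + ((2 * Q : ℕ) : ℝ) ^ 2) * (S.card : ℝ) := by
      calc ((Q : ℝ) / 2 * (S.card : ℝ) * X) * (S.card : ℝ)
          = (Q : ℝ) / 2 * (S.card : ℝ) ^ 2 * X := by ring
        _ ≤ _ := h8
    exact le_of_mul_le_mul_right h10 hZpos
  push_cast at h9
  have hN0 : (0 : ℝ) ≤ N := Nat.cast_nonneg N
  nlinarith [mul_nonneg hC₀.le hN0]

end Pool.Agent.Helper41.HL
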